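import Pool.Agent.Helper15.T6.Stmts

set_option autoImplicit false

/-!
MP_2f9829_co: T6 ST_ERR (intersecting cycles are negligible), all degrees `d`.
-/

open Finset MeasureTheory Filter Topology

namespace Pool.Agent.Helper90.T6

open Pool.Agent.Helper15.T6
open Pool.Agent.Helper15.T4 (IsPM PM cov IsMat nsq po)

namespace ER

theorem mem_cov {H : Type} [Fintype H] (F : Finset (Sym2 H)) (h : H) :
    h ∈ cov F ↔ ∃ e ∈ F, h ∈ e := by
  simp [cov]

theorem mat_of_sub {n d : ℕ} (F M : Finset (Sym2 (HE n d))) (hM : M ∈ PM (univ : Finset (HE n d)))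
    (h : F ⊆ M) : IsMat F := by
  have hM' : IsPM (univ : Finset (HE n d)) M := by
    simpa [PM] using hM
  refine ⟨fun e he => hM'.1 e (h he), fun e he a ha => (mem_cov F a).2 ⟨e, he, ha⟩, ?_⟩
  intro a ha
  obtain ⟨e, he, hae⟩ := (mem_cov F a).1 ha
  obtain ⟨e0, _, hu⟩ := hM'.2.2 a (Finset.mem_univ _)
  refine ⟨e, ⟨he, hae⟩, ?_⟩
  rintro e' ⟨he', hae'⟩
  rw [hu e ⟨h he, hae⟩, hu e' ⟨h he', hae'⟩]

theorem mass_zero {n d : ℕ} (W : Finset (Sym2 (HE n d)) → ℝ) (F : Finset (Sym2 (HE n d)))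
    (h : ¬ IsMat F) : mass W F = 0 := by
  unfold mass
  rw [Finset.sum_eq_zero]
  intro M hM
  rw [Finset.mem_filter] at hM
  exact absurd (mat_of_sub F M hM.1 hM.2) h

end ER

open Classical in
theorem ERR (h1 : ST_STR) (h2 : ST_STRU) (h3 : ST_CNT) (h4 : ST_EXT) (h5 : ST_CNE) : ST_ERR := by
  intro d W hW hbd I _ _ κ k
  choose C hC using hbd
  set f := ∑ i, (κ i + 1) with hf
  set C0 : ℝ := ∑ e ∈ range (f + k + 2), |C e| with hC0
  have hC0' : 0 ≤ C0 := Finset.sum_nonneg fun _ _ => abs_nonneg _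
  choose G hG using fun v => h5 d k v f
  set A : ℝ := ∑ v ∈ range (k + 2), (G v : ℝ) with hA
  set B : ℝ := (((d * (d - 1) : ℕ) : ℝ)) with hB
  have hA0 : 0 ≤ A := Finset.sum_nonneg fun _ _ => Nat.cast_nonneg _
  have hB0 : 0 ≤ B := Nat.cast_nonneg _
  set D : ℝ := B ^ f * (A * C0) with hD
  have hD0 : 0 ≤ D := by positivity
  refine ⟨D, ?_⟩
  have hev : ∀ᶠ N : ℕ in atTop, ∀ e ∈ range (f + k + 2), ∀ F : Finset (Sym2 (HE (2 * N) d)),
      IsMat F → F.card = e → mass (W N) F ≤ C e / (2 * (N : ℝ)) ^ e := by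
    rw [Filter.eventually_all_finset]
    intro e _
    exact hC e
  filter_upwards [hev, eventually_ge_atTop 1] with N hN hN1
  have hN1' : (1 : ℝ) ≤ (N : ℝ) := by exact_mod_cast hN1
  have h2N : (1 : ℝ) ≤ 2 * (N : ℝ) := by linarith
  have h2N0 : (0 : ℝ) < 2 * (N : ℝ) := by linarith
  -- the pairs
  set Q : ((i : I) → CycD (2 * N) d (κ i)) × CycD (2 * N) d k → Prop := fun p => DisjFam p.1 ∧
    Valid p.2 ∧ (∀ i, E p.2 ≠ E (p.1 i)) ∧ ¬ Disjoint (vs p.2) (tv (EU p.1)) with hQ
  set Pf := (univ : Finset (((i : I) → CycD (2 * N) d (κ i)) × CycD (2 * N) d k)).filter Q with hPf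
  have e1 : ∀ M : Finset (Sym2 (HE (2 * N) d)),
      ({p : ((i : I) → CycD (2 * N) d (κ i)) × CycD (2 * N) d k | DisjFam p.1 ∧ Valid p.2 ∧
        (∀ i, E p.2 ≠ E (p.1 i)) ∧ ¬ Disjoint (vs p.2) (tv (EU p.1)) ∧ EU p.1 ⊆ M ∧
        E p.2 ⊆ M}.ncard : ℝ) = ∑ p ∈ Pf, if EU p.1 ∪ E p.2 ⊆ M then 1 else 0 := by
    intro M
    have : {p : ((i : I) → CycD (2 * N) d (κ i)) × CycD (2 * N) d k | DisjFam p.1 ∧ Valid p.2 ∧
        (∀ i, E p.2 ≠ E (p.1 i)) ∧ ¬ Disjoint (vs p.2) (tv (EU p.1)) ∧ EU p.1 ⊆ M ∧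
        E p.2 ⊆ M} = ↑(Pf.filter (fun p => EU p.1 ∪ E p.2 ⊆ M)) := by
      ext p
      simp only [Set.mem_ofPred_eq, Finset.coe_filter, Finset.mem_filter, hPf, hQ, Finset.mem_univ,
        true_and, Finset.union_subset_iff]
      tauto
    rw [this, Set.ncard_coe_finset, Finset.card_filter]
    push_cast
    rfl
  have e2 : ∑ M ∈ PM (univ : Finset (HE (2 * N) d)), W N M *
      ({p : ((i : I) → CycD (2 * N) d (κ i)) × CycD (2 * N) d k | DisjFam p.1 ∧ Valid p.2 ∧
        (∀ i, E p.2 ≠ E (p.1 i)) ∧ ¬ Disjoint (vs p.2) (tv (EU p.1)) ∧ EU p.1 ⊆ M ∧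
        E p.2 ⊆ M}.ncard : ℝ) = ∑ p ∈ Pf, mass (W N) (EU p.1 ∪ E p.2) := by
    have : ∀ p : ((i : I) → CycD (2 * N) d (κ i)) × CycD (2 * N) d k, mass (W N) (EU p.1 ∪ E p.2) =
        ∑ M ∈ PM (univ : Finset (HE (2 * N) d)), if EU p.1 ∪ E p.2 ⊆ M then W N M else 0 := by
      intro p
      unfold mass
      rw [Finset.sum_filter]
    simp only [this]
    rw [Finset.sum_comm]
    refine Finset.sum_congr rfl fun M _ => ?_
    rw [e1, Finset.mul_sum]
    refine Finset.sum_congr rfl fun p _ => ?_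
    split_ifs <;> simp
  rw [e2]
  -- bound of the mass
  have e3 : ∀ p ∈ Pf, mass (W N) (EU p.1 ∪ E p.2) ≤
      C0 / (2 * (N : ℝ)) ^ ((tv (EU p.1) ∪ vs p.2).card + 1) := by
    intro p hp
    simp only [hPf, Finset.mem_filter, Finset.mem_univ, true_and, hQ] at hp
    obtain ⟨p1, p2, p3, p4⟩ := hp
    by_cases hM : IsMat (EU p.1 ∪ E p.2)
    · have hx := h4 (2 * N) d I κ p.1 k p.2 p1 p2 p3 hM p4
      have hle : (EU p.1 ∪ E p.2).card ≤ f + (k + 1) := by
        refine (Finset.card_union_le _ _).trans ?_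
        rw [(h2 (2 * N) d I κ p.1 p1).2.1, (h1 (2 * N) d k p.2 p2).2.1]
      have hm := hN (EU p.1 ∪ E p.2).card (by rw [Finset.mem_range]; omega) _ hM rfl
      refine hm.trans ?_
      have hC1 : C (EU p.1 ∪ E p.2).card ≤ C0 := by
        refine (le_abs_self _).trans ?_
        exact Finset.single_le_sum (f := fun e => |C e|) (fun _ _ => abs_nonneg _)
          (Finset.mem_range.2 (by omega))
      have hp1 : (2 * (N : ℝ)) ^ ((tv (EU p.1) ∪ vs p.2).card + 1) ≤
          (2 * (N : ℝ)) ^ (EU p.1 ∪ E p.2).card := pow_le_pow_right₀ h2N hx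
      exact div_le_div₀ hC0' hC1 (pow_pos h2N0 _) hp1
    · rw [ER.mass_zero _ _ hM]
      positivity
  have e4 : ∑ p ∈ Pf, mass (W N) (EU p.1 ∪ E p.2) ≤
      ∑ c ∈ (univ : Finset ((i : I) → CycD (2 * N) d (κ i))).filter (fun c => DisjFam c),
        ∑ c' ∈ (univ : Finset (CycD (2 * N) d k)).filter (fun c' => Valid c'),
          C0 / (2 * (N : ℝ)) ^ ((tv (EU c) ∪ vs c').card + 1) := by
    refine (Finset.sum_le_sum e3).trans ?_
    rw [← Finset.sum_product']
    apply Finset.sum_le_sum_of_subset_of_nonneg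
    · intro p hp
      simp only [hPf, Finset.mem_filter, Finset.mem_univ, true_and, hQ] at hp
      simp only [Finset.mem_product, Finset.mem_filter, Finset.mem_univ, true_and]
      exact ⟨hp.1, hp.2.1⟩
    · intro p _ _
      positivity
  refine e4.trans ?_
  have e5 : ∀ c ∈ (univ : Finset ((i : I) → CycD (2 * N) d (κ i))).filter (fun c => DisjFam c),
      ∑ c' ∈ (univ : Finset (CycD (2 * N) d k)).filter (fun c' => Valid c'),
        C0 / (2 * (N : ℝ)) ^ ((tv (EU c) ∪ vs c').card + 1) ≤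
      (A * C0) / (2 * (N : ℝ)) ^ (f + 1) := by
    intro c hc
    simp only [Finset.mem_filter, Finset.mem_univ, true_and] at hc
    have hU : (tv (EU c)).card = f := (h2 (2 * N) d I κ c hc).2.2.1
    have hmap : ∀ c' ∈ (univ : Finset (CycD (2 * N) d k)).filter (fun c' => Valid c'),
        (tv (EU c) ∪ vs c').card - f ∈ range (k + 2) := by
      intro c' hc'
      simp only [Finset.mem_filter, Finset.mem_univ, true_and] at hc'
      have := Finset.card_union_le (tv (EU c)) (vs c')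
      rw [hU, (h1 (2 * N) d k c' hc').2.2.2.1] at this
      rw [Finset.mem_range]
      omega
    rw [← Finset.sum_fiberwise_of_maps_to hmap]
    have e6 : ∀ v ∈ range (k + 2),
        ∑ c' ∈ ((univ : Finset (CycD (2 * N) d k)).filter (fun c' => Valid c')).filter
          (fun c' => (tv (EU c) ∪ vs c').card - f = v),
          C0 / (2 * (N : ℝ)) ^ ((tv (EU c) ∪ vs c').card + 1) ≤
        ((G v : ℝ) * C0) / (2 * (N : ℝ)) ^ (f + 1) := by
      intro v _
      have hcard : ∀ c' ∈ ((univ : Finset (CycD (2 * N) d k)).filter (fun c' => Valid c')).filter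
          (fun c' => (tv (EU c) ∪ vs c').card - f = v),
          C0 / (2 * (N : ℝ)) ^ ((tv (EU c) ∪ vs c').card + 1) = C0 / (2 * (N : ℝ)) ^ (f + v + 1) := by
        intro c' hc'
        have hle := Finset.card_le_card (Finset.subset_union_left (s₁ := tv (EU c)) (s₂ := vs c'))
        rw [hU] at hle
        have := (Finset.mem_filter.1 hc').2
        have h6 : (tv (EU c) ∪ vs c').card = f + v := by omega
        rw [h6]
      rw [Finset.sum_congr rfl hcard, Finset.sum_const, nsmul_eq_mul]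
      have hcnt : (((univ : Finset (CycD (2 * N) d k)).filter (fun c' => Valid c')).filter
          (fun c' => (tv (EU c) ∪ vs c').card - f = v)).card ≤
          G v * (2 * N) ^ v := by
        have := hG v (2 * N) (tv (EU c)) (le_of_eq hU)
        refine le_trans ?_ this
        rw [← Set.ncard_coe_finset]
        apply Set.ncard_le_ncard _ (Set.toFinite _)
        intro c' hc'
        simp only [Finset.coe_filter, Finset.mem_filter, Finset.mem_univ, true_and,
          Set.mem_ofPred_eq] at hc' ⊢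
        refine ⟨hc'.1, ?_⟩
        have hle := Finset.card_le_card (Finset.subset_union_left (s₁ := tv (EU c)) (s₂ := vs c'))
        rw [hU] at hle
        omega
      have hcnt' : ((((univ : Finset (CycD (2 * N) d k)).filter (fun c' => Valid c')).filter
          (fun c' => (tv (EU c) ∪ vs c').card - f = v)).card : ℝ) ≤
          (G v : ℝ) * (2 * (N : ℝ)) ^ v := by
        exact_mod_cast hcnt
      calc _ ≤ (G v : ℝ) * (2 * (N : ℝ)) ^ v *
            (C0 / (2 * (N : ℝ)) ^ (f + v + 1)) :=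
            mul_le_mul_of_nonneg_right hcnt' (by positivity)
        _ = ((G v : ℝ) * C0) / (2 * (N : ℝ)) ^ (f + 1) := by
            have e7 : (2 * (N : ℝ)) ^ (f + v + 1) = (2 * (N : ℝ)) ^ v * (2 * (N : ℝ)) ^ (f + 1) := by
              rw [← pow_add]; congr 1; ring
            rw [e7]
            have : (2 * (N : ℝ)) ^ v ≠ 0 := (pow_pos h2N0 _).ne'
            have : (2 * (N : ℝ)) ^ (f + 1) ≠ 0 := (pow_pos h2N0 _).ne'
            field_simp
    refine (Finset.sum_le_sum e6).trans ?_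
    rw [hA, Finset.sum_mul, Finset.sum_div]
  refine (Finset.sum_le_sum e5).trans ?_
  rw [Finset.sum_const, nsmul_eq_mul]
  have e8 : (((univ : Finset ((i : I) → CycD (2 * N) d (κ i))).filter (fun c => DisjFam c)).card : ℝ) ≤
      (2 * (N : ℝ)) ^ f * B ^ f := by
    have := h3 (2 * N) d I κ
    have e9 : ((univ : Finset ((i : I) → CycD (2 * N) d (κ i))).filter (fun c => DisjFam c)).card =
        {c : (i : I) → CycD (2 * N) d (κ i) | DisjFam c}.ncard := by
      rw [← Set.ncard_coe_finset]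
      congr 1
      ext c
      simp
    rw [e9, this, Nat.cast_mul, Nat.cast_pow, ← hB]
    have e10 := Nat.descFactorial_le_pow (2 * N) f
    apply mul_le_mul_of_nonneg_right _ (by positivity)
    exact_mod_cast e10
  calc _ ≤ (2 * (N : ℝ)) ^ f * B ^ f *
        ((A * C0) / (2 * (N : ℝ)) ^ (f + 1)) :=
        mul_le_mul_of_nonneg_right e8 (by positivity)
    _ = D / (2 * (N : ℝ)) := by
        rw [hD, pow_succ (2 * (N : ℝ)) f]
        have : (2 * (N : ℝ)) ^ f ≠ 0 := (pow_pos h2N0 _).ne'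
        have : (2 * (N : ℝ)) ≠ 0 := h2N0.ne'
        field_simp
    _ ≤ D / N := by
        apply div_le_div_of_nonneg_left hD0 (by linarith)
        linarith

end Pool.Agent.Helper90.T6
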